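import Pool.Agent.Lib.MP_75b31c_lc.D40.Iface

set_option autoImplicit false

/-!
# Modules REACH and FIN of the chapter on Borel determinacy (MP_75b31c_lc, Part A)
-/

namespace Pool.Agent.Lib.MP_75b31c_lc.D40.H68

/-- Restrictions of the positions of a play are the earlier positions. -/
theorem branch_res {T : GT} {x : ℕ → T.Q} (hx : Branch T x) {m n : ℕ} (h : m ≤ n) :
    T.res m (x n) = x m := by
  induction n, h using Nat.le_induction with
  | base => exact T.res_self _ _ (by rw [(hx m).1])
  | succ n hn ih =>
    rw [← ih, ← (hx n).2, T.res_res, min_eq_left hn]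

/-- The next position of a play is a child. -/
theorem branch_child {T : GT} {x : ℕ → T.Q} (hx : Branch T x) (n : ℕ) :
    Child T (x n) (x (n + 1)) := by
  refine ⟨?_, ?_⟩
  · rw [(hx (n + 1)).1, (hx n).1]
  · rw [(hx n).1]
    exact (hx n).2

/-- `REACH`. -/
theorem reach : REACH_S := by
  classical
  intro T j A G q hF
  induction hF with
  | base q hq =>
    refine ⟨dflt T, dflt_spec T, ?_⟩
    intro x _ hxq _
    refine ⟨T.len q, le_rfl, ?_, ?_⟩
    · rw [hxq]
      exact hq
    · intro i h1 h2
      omega
  | mine q q' ht hc hA _ ih =>
    obtain ⟨ρ, hρ, hR⟩ := ih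
    refine ⟨fun p => if p = q then q' else ρ p, ?_, ?_⟩
    · intro p
      by_cases hp : p = q
      · simp only [hp, if_true]
        exact hc
      · simp only [hp, if_false]
        exact hρ p
    · intro x hx hxq hcons
      by_cases hqG : q ∈ G
      · refine ⟨T.len q, le_rfl, ?_, ?_⟩
        · rw [hxq]
          exact hqG
        · intro i h1 h2
          omega
      · have hl : T.len q' = T.len q + 1 := hc.1
        have h1 : x (T.len q + 1) = q' := by
          have := hcons (T.len q) le_rfl ht (by
            intro i hi1 hi2
            have : i = T.len q := by omega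
            rw [this, hxq]
            exact hqG)
          rw [this, hxq]
          simp
        obtain ⟨n, hn, hnG, hnA⟩ := hR x hx (by rw [hl, h1]) (by
          intro n hn hT hno
          have h2 := hcons n (by omega) hT (by
            intro i hi1 hi2
            rcases Nat.eq_or_lt_of_le hi1 with h3 | h3
            · rw [← h3, hxq]
              exact hqG
            · exact hno i (by omega) hi2)
          have hne : x n ≠ q := by
            intro h4
            have := (hx n).1
            rw [h4] at this
            omega
          rw [h2]
          simp [hne])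
        refine ⟨n, by omega, hnG, ?_⟩
        intro i hi1 hi2 hi3
        rcases Nat.eq_or_lt_of_le hi1 with h3 | h3
        · rw [← h3, h1]
          exact hA
        · exact hnA i (by omega) hi2 hi3
  | yours q ht _ ih =>
    choose ρ hρ using ih
    refine ⟨fun p => if h : Child T q (T.res (T.len q + 1) p) then ρ _ h p else dflt T p, ?_, ?_⟩
    · intro p
      by_cases h : Child T q (T.res (T.len q + 1) p)
      · simp only [dif_pos h]
        exact (hρ _ h).1 p
      · simp only [dif_neg h]
        exact dflt_spec T p
    · intro x hx hxq hcons
      by_cases hqG : q ∈ G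
      · refine ⟨T.len q, le_rfl, ?_, ?_⟩
        · rw [hxq]
          exact hqG
        · intro i h1 h2
          omega
      · have hc : Child T q (x (T.len q + 1)) := by
          have := branch_child hx (T.len q)
          rwa [hxq] at this
        have hl : T.len (x (T.len q + 1)) = T.len q + 1 := hc.1
        obtain ⟨n, hn, hnG, hnA⟩ := (hρ _ hc).2 x hx (by rw [hl]) (by
          intro n hn hT hno
          rw [hl] at hn hno
          have h2 := hcons n (by omega) hT (by
            intro i hi1 hi2
            rcases Nat.eq_or_lt_of_le hi1 with h3 | h3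
            · rw [← h3, hxq]
              exact hqG
            · exact hno i (by omega) hi2)
          have h5 : T.res (T.len q + 1) (x n) = x (T.len q + 1) := branch_res hx hn
          rw [h2]
          have key : ∀ r (hr : Child T q r), r = x (T.len q + 1) →
              ρ r hr (x n) = ρ (x (T.len q + 1)) hc (x n) := by
            intro r hr hr'
            subst hr'
            rfl
          have h6 : Child T q (T.res (T.len q + 1) (x n)) := by
            rw [h5]
            exact hc
          exact (dif_pos h6).trans (key _ h6 h5))
        rw [hl] at hn hnA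
        refine ⟨n, by omega, hnG, ?_⟩
        intro i hi1 hi2 hi3
        rcases Nat.eq_or_lt_of_le hi1 with h3 | h3
        · rw [← h3] at hi3
          exact absurd hi3 ht
        · exact hnA i (by omega) hi2 hi3

/-- Backward induction. -/
theorem fin_aux (T : GT) (m : ℕ) (S : Set T.Q) : ∀ (i : ℕ) (q : T.Q), T.len q + i = m →
    ∃ (j : Bool) (σ : T.Q → T.Q), IsStrat T σ ∧ ∀ x, Branch T x → x (T.len q) = q →
      (∀ n, T.len q ≤ n → Turn j n → x (n + 1) = σ (x n)) → (x m ∈ S ↔ j = false) := by
  classical
  intro i
  induction i with
  | zero =>
    intro q hq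
    by_cases hS : q ∈ S
    · refine ⟨false, dflt T, dflt_spec T, ?_⟩
      intro x _ hxq _
      have : x m = q := by rw [← hxq]; congr 1; omega
      rw [this]
      simp [hS]
    · refine ⟨true, dflt T, dflt_spec T, ?_⟩
      intro x _ hxq _
      have : x m = q := by rw [← hxq]; congr 1; omega
      rw [this]
      simp [hS]
  | succ i ih =>
    intro q hq
    have hall : ∀ q', Child T q q' → ∃ (j : Bool) (σ : T.Q → T.Q), IsStrat T σ ∧
        ∀ x, Branch T x → x (T.len q') = q' →
        (∀ n, T.len q' ≤ n → Turn j n → x (n + 1) = σ (x n)) → (x m ∈ S ↔ j = false) := by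
      intro q' hc
      exact ih q' (by have := hc.1; omega)
    obtain ⟨j0, hj0⟩ : ∃ j0 : Bool, Turn j0 (T.len q) := by
      rcases Nat.mod_two_eq_zero_or_one (T.len q) with h | h
      · exact ⟨false, by simpa [Turn] using h⟩
      · exact ⟨true, by simpa [Turn] using h⟩
    by_cases hex : ∃ q', Child T q q' ∧ ∃ σ : T.Q → T.Q, IsStrat T σ ∧
        ∀ x, Branch T x → x (T.len q') = q' →
        (∀ n, T.len q' ≤ n → Turn j0 n → x (n + 1) = σ (x n)) → (x m ∈ S ↔ j0 = false)
    · obtain ⟨q', hc, σ, hσ, hw⟩ := hex
      refine ⟨j0, fun p => if p = q then q' else σ p, ?_, ?_⟩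
      · intro p
        by_cases hp : p = q
        · simp only [hp, if_true]
          exact hc
        · simp only [hp, if_false]
          exact hσ p
      · intro x hx hxq hcons
        have hl : T.len q' = T.len q + 1 := hc.1
        have h1 : x (T.len q + 1) = q' := by
          rw [hcons _ le_rfl hj0, hxq]
          simp
        apply hw x hx (by rw [hl, h1])
        intro n hn hT
        have hne : x n ≠ q := by
          intro h4
          have := (hx n).1
          rw [h4] at this
          omega
        rw [hcons n (by omega) hT]
        simp [hne]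
    · push Not at hex
      have hall' : ∀ q', Child T q q' → ∃ (σ : T.Q → T.Q), IsStrat T σ ∧
          ∀ x, Branch T x → x (T.len q') = q' →
          (∀ n, T.len q' ≤ n → Turn (!j0) n → x (n + 1) = σ (x n)) → (x m ∈ S ↔ (!j0) = false) := by
        intro q' hc
        obtain ⟨j, σ, hσ, hw⟩ := hall q' hc
        have hj : j = !j0 := by
          by_contra hne
          have hj' : j = j0 := by
            cases j <;> cases j0 <;> simp_all
          subst hj'
          obtain ⟨x, hx1, hx2, hx3, hx4⟩ := hex q' hc σ hσ
          have := hw x hx1 hx2 hx3
          rcases hx4 with h | h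
          · exact absurd (this.1 h.1) h.2
          · exact absurd (this.2 h.2) h.1
        subst hj
        exact ⟨σ, hσ, hw⟩
      choose σ hσ using hall'
      refine ⟨!j0, fun p => if h : Child T q (T.res (T.len q + 1) p) then σ _ h p else dflt T p,
        ?_, ?_⟩
      · intro p
        by_cases h : Child T q (T.res (T.len q + 1) p)
        · simp only [dif_pos h]
          exact (hσ _ h).1 p
        · simp only [dif_neg h]
          exact dflt_spec T p
      · intro x hx hxq hcons
        have hc : Child T q (x (T.len q + 1)) := by
          have := branch_child hx (T.len q)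
          rwa [hxq] at this
        have hl : T.len (x (T.len q + 1)) = T.len q + 1 := hc.1
        apply (hσ _ hc).2 x hx (by rw [hl])
        intro n hn hT
        rw [hl] at hn
        have h5 : T.res (T.len q + 1) (x n) = x (T.len q + 1) := branch_res hx hn
        rw [hcons n (by omega) hT]
        have key : ∀ r (hr : Child T q r), r = x (T.len q + 1) →
            σ r hr (x n) = σ (x (T.len q + 1)) hc (x n) := by
          intro r hr hr'
          subst hr'
          rfl
        have h6 : Child T q (T.res (T.len q + 1) (x n)) := by
          rw [h5]
          exact hc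
        exact (dif_pos h6).trans (key _ h6 h5)

/-- `FIN`. -/
theorem fin : FIN_S := by
  intro T W hW
  obtain ⟨m, S, hS⟩ := hW
  obtain ⟨r, hr⟩ := T.root_ex
  obtain ⟨j, σ, hσ, hw⟩ := fin_aux T m S m r (by omega)
  have key : ∀ x, Branch T x → Cons T j σ x → (x ∈ W ↔ j = false) := by
    intro x hx hc
    rw [hS x hx]
    apply hw x hx
    · rw [hr]
      exact T.root_uniq _ _ (hx 0).1 hr
    · intro n _ hT
      exact hc n hT
  cases j with
  | false => exact Or.inl ⟨σ, hσ, fun x hx hc => (key x hx hc).2 rfl⟩
  | true => exact Or.inr ⟨σ, hσ, fun x hx hc h => by simpa using (key x hx hc).1 h⟩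

end Pool.Agent.Lib.MP_75b31c_lc.D40.H68
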