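import Pool.Agent.Lib.MP_75b31c_lc.D40.Iface

set_option autoImplicit false

/-!
# Modules SIG and BDF of the chapter on Borel determinacy (MP_75b31c_lc, Part A)
-/

namespace Pool.Agent.Lib.MP_75b31c_lc.D40.H68

/-- `SIG`. -/
theorem sig : SIG_S := by
  intro hPUC hU C hC
  let M : MeasurableSpace (ℕ → Bool) :=
    { MeasurableSet' := fun C => PU bin {x | seqOf x ∈ C}
      measurableSet_empty := by
        apply hPUC.2
        refine ⟨0, ∅, fun x _ => ?_⟩
        simp
      measurableSet_compl := fun s hs => hPUC.1 _ _ hs
      measurableSet_iUnion := fun f hf => by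
        have := hU bin (fun n => {x | seqOf x ∈ f n}) hf
        have e : {x : ℕ → bin.Q | seqOf x ∈ ⋃ i, f i} = ⋃ n, {x : ℕ → bin.Q | seqOf x ∈ f n} := by
          ext x
          simp
        exact cast (congrArg (PU bin) e).symm this }
  have hle : (MeasurableSpace.pi : MeasurableSpace (ℕ → Bool)) ≤ M := by
    apply iSup_le
    intro i s hs
    obtain ⟨t, _, rfl⟩ := hs
    apply hPUC.2
    refine ⟨i + 1, {l : List Bool | l.getD i false ∈ t}, fun x _ => ?_⟩
    rfl
  exact hle C hC

/-- The initial segments of an infinite sequence form a play. -/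
theorem branch_map (z : ℕ → Bool) : Branch bin (fun n => (List.range n).map z) := by
  intro n
  refine ⟨?_, ?_⟩
  · simp [bin]
  · simp [bin, List.range_succ]

theorem seqOf_map (z : ℕ → Bool) : seqOf (fun n => (List.range n).map z) = z := by
  funext n
  simp [seqOf, List.getD_eq_getElem?_getD]

theorem strat_bin {σ : List Bool → List Bool} (hσ : IsStrat bin σ) (l : List Bool) :
    σ l = l ++ [(σ l).getD l.length false] := by
  obtain ⟨h1, h2⟩ := hσ l
  have h1' : (σ l).length = l.length + 1 := h1
  have h2' : (σ l).take l.length = l := h2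
  have h3 := List.take_append_drop l.length (σ l)
  rw [h2'] at h3
  have h4 : (σ l).drop l.length = [(σ l).getD l.length false] := by
    have h5 : l.length < (σ l).length := by omega
    rw [List.drop_eq_getElem_cons h5, List.drop_of_length_le (by omega),
      List.getD_eq_getElem _ _ h5]
  rw [h4] at h3
  exact h3.symm

theorem cons_map {σ : List Bool → List Bool} (hσ : IsStrat bin σ) (j : Bool) (z : ℕ → Bool)
    (hz : ∀ n, n % 2 = j.toNat →
      z n = (σ ((List.range n).map z)).getD ((List.range n).map z).length false) :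
    Cons bin j σ (fun n => (List.range n).map z) := by
  intro n hT
  have h1 := hz n hT
  change (List.range (n + 1)).map z = σ ((List.range n).map z)
  rw [strat_bin hσ, ← h1, List.range_succ, List.map_append]
  rfl

/-- `BDF`. -/
theorem bdf : BDF_S := by
  intro hFIN hTRANS hPU C hC
  obtain ⟨S, c, _, hfin⟩ := hPU C hC bin ⟨id, fun _ => rfl, fun _ _ => rfl⟩ 0
  have hdet := hTRANS S bin c _ (hFIN S _ hfin)
  rcases hdet with ⟨σ, hσ, hw⟩ | ⟨τ, hτ, hw⟩
  · left
    refine ⟨fun l => (σ l).getD l.length false, fun z hz => ?_⟩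
    have h1 := hw _ (branch_map z) (cons_map hσ false z hz)
    have h2 : seqOf (fun n => (List.range n).map z) ∈ C := h1
    rwa [seqOf_map] at h2
  · right
    refine ⟨fun l => (τ l).getD l.length false, fun z hz hzC => ?_⟩
    have h1 := hw _ (branch_map z) (cons_map hτ true z hz)
    apply h1
    have h2 : seqOf (fun n => (List.range n).map z) ∈ C := by rwa [seqOf_map]
    exact h2

end Pool.Agent.Lib.MP_75b31c_lc.D40.H68
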